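import Pool.Agent.helper70.LZ.SpecZ

set_option autoImplicit false

namespace Pool.Agent.LE

open Pool.Agent.helper58.DC Pool.Agent.DI Pool.Agent.GR Pool.Agent.OB Pool.Agent.DR Pool.Agent.FI Pool.Agent.FI3 Pool.Agent.FI4


theorem ZPR_core (B : Type) [Fintype B] (X : Finset B) (n : ℕ) (a : Fin n → B → ℂ) (E : ℝ)
    (hn : ∀ i, ∑ ψ, ‖a i ψ‖ ^ 2 ≤ E)
    (ho : ∀ i j, i ≠ j → ∑ ψ, a i ψ * (starRingEnd ℂ) (a j ψ) = 0)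
    (hc : ∀ i j, ∀ ψ ∈ X, a i ψ = a j ψ) (i : Fin n) :
    (n : ℝ) * ∑ ψ ∈ X, ‖a i ψ‖ ^ 2 ≤ E := by
  classical
  have hn0 : 0 < n := lt_of_le_of_lt (Nat.zero_le _) i.2
  have hnr : (0 : ℝ) < n := by exact_mod_cast hn0
  set b : B → ℂ := fun ψ => ∑ j, a j ψ with hb
  have h1 : ∑ ψ, ‖b ψ‖ ^ 2 = ∑ j, ∑ ψ, ‖a j ψ‖ ^ 2 := by
    have h2 : ((∑ ψ, ‖b ψ‖ ^ 2 : ℝ) : ℂ) = ((∑ j, ∑ ψ, ‖a j ψ‖ ^ 2 : ℝ) : ℂ) := by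
      push_cast
      have h3 : ∀ z : ℂ, ((‖z‖ : ℝ) : ℂ) ^ 2 = z * (starRingEnd ℂ) z := fun z => (Complex.mul_conj' z).symm
      simp only [h3]
      have h4 : ∀ ψ, b ψ * (starRingEnd ℂ) (b ψ) = ∑ j, ∑ l, a j ψ * (starRingEnd ℂ) (a l ψ) := by
        intro ψ
        rw [hb]
        simp only [map_sum]
        rw [Finset.sum_mul_sum]
      simp only [h4]
      rw [Finset.sum_comm]
      refine Finset.sum_congr rfl fun j _ => ?_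
      rw [Finset.sum_comm]
      rw [Finset.sum_eq_single j]
      · intro l _ hl
        exact ho j l (Ne.symm hl)
      · intro h
        exact absurd (Finset.mem_univ _) h
    exact_mod_cast h2
  have h5 : ∑ ψ ∈ X, ‖b ψ‖ ^ 2 = (n : ℝ) ^ 2 * ∑ ψ ∈ X, ‖a i ψ‖ ^ 2 := by
    rw [Finset.mul_sum]
    refine Finset.sum_congr rfl fun ψ hψ => ?_
    have h6 : b ψ = (n : ℂ) * a i ψ := by
      rw [hb]
      show ∑ j, a j ψ = _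
      rw [Finset.sum_congr rfl fun j _ => hc j i ψ hψ]
      simp
    rw [h6, norm_mul, mul_pow]
    simp
  have h7 : ∑ ψ ∈ X, ‖b ψ‖ ^ 2 ≤ ∑ ψ, ‖b ψ‖ ^ 2 :=
    Finset.sum_le_sum_of_subset_of_nonneg (Finset.subset_univ _) fun _ _ _ => sq_nonneg _
  have h8 : ∑ j, ∑ ψ, ‖a j ψ‖ ^ 2 ≤ (n : ℝ) * E := by
    calc ∑ j, ∑ ψ, ‖a j ψ‖ ^ 2 ≤ ∑ _j : Fin n, E := Finset.sum_le_sum fun j _ => hn j
      _ = (n : ℝ) * E := by simp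
  have h9 : (n : ℝ) ^ 2 * ∑ ψ ∈ X, ‖a i ψ‖ ^ 2 ≤ (n : ℝ) * E := by
    rw [← h5]
    exact (h7.trans (le_of_eq h1)).trans h8
  have h10 : (n : ℝ) * ((n : ℝ) * ∑ ψ ∈ X, ‖a i ψ‖ ^ 2) ≤ (n : ℝ) * E := by
    calc (n : ℝ) * ((n : ℝ) * ∑ ψ ∈ X, ‖a i ψ‖ ^ 2) = (n : ℝ) ^ 2 * ∑ ψ ∈ X, ‖a i ψ‖ ^ 2 := by ring
      _ ≤ _ := h9
  exact le_of_mul_le_mul_left h10 hnr

theorem ZPR : ZPR_stmt := by
  intro B _ X n a E _ hn ho hc i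
  exact ZPR_core B X n a E hn ho hc i

end Pool.Agent.LE
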